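import Pool.Agent.H83.UE.Targets4

/-!
# Board udb_modules, row DEG: the number of points over almost all points
-/

set_option autoImplicit false

open Polynomial MeasureTheory Filter Topology Set
open scoped OnePoint ComplexConjugate ComplexOrder Laplacian ENNReal Nat
open Pool.Agent.H83.UE

namespace Pool.Agent.H11.UDB

theorem pf_DEG (h1 : T_GNR) (h2 : T_CNT) : T_DEG := by
  classical
  intro k m I hI J hJ w
  have hB : ∀ i : Fin k, i ∉ J → ∃ h ∈ I, h ≠ 0 ∧ h.vars ⊆ insert i J := by
    intro i hi
    exact hI (insert i J) (by rw [Finset.card_insert_of_notMem hi, hJ])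
  choose! h hhI hh0 hhv using hB
  obtain ⟨s, hs⟩ := (isNoetherianRing_iff_ideal_fg (MvPolynomial (Fin k) ℂ)).1 inferInstance I
  set T : Finset (MvPolynomial (Fin k) ℂ) := s ∪ Finset.univ.image h with hT
  set Cf : Set ℂ := ⋃ F ∈ T, (F.coeffs : Set ℂ) with hCf
  have hCfc : Cf.Countable := T.countable_toSet.biUnion fun F _ => F.coeffs.countable_toSet
  set K : Subfield ℂ := Subfield.closure Cf with hK
  have hKc : (K : Set ℂ).Countable := by
    have e1 := Subfield.cardinalMk_closure_le_max Cf
    have e2 : Cardinal.mk Cf ≤ Cardinal.aleph0 := Cardinal.le_aleph0_iff_set_countable.2 hCfc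
    rw [max_eq_right e2] at e1
    exact Cardinal.le_aleph0_iff_set_countable.1 e1
  have hlift : ∀ F ∈ T, ∃ F' : MvPolynomial (Fin k) K, MvPolynomial.map K.subtype F' = F := by
    intro F hF
    have e1 : F ∈ Set.range (MvPolynomial.map (σ := Fin k) K.subtype) := by
      rw [MvPolynomial.mem_range_map_iff_coeffs_subset]
      intro c hc
      have e2 : c ∈ K := Subfield.subset_closure (mem_biUnion hF hc)
      exact ⟨⟨c, e2⟩, rfl⟩
    exact e1
  set IK : Ideal (MvPolynomial (Fin k) K) := I.comap (MvPolynomial.map K.subtype) with hIK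
  have hae : ∀ (z : Fin k → ℂ) (F : MvPolynomial (Fin k) K),
      MvPolynomial.aeval z F = MvPolynomial.eval z (MvPolynomial.map K.subtype F) := by
    intro z F
    rw [MvPolynomial.eval_map]
    rfl
  have hzer : ∀ z : Fin k → ℂ, (∀ F ∈ IK, MvPolynomial.aeval z F = 0) ↔
      ∀ F ∈ I, MvPolynomial.eval z F = 0 := by
    intro z
    constructor
    · intro hz
      have e1 : I ≤ RingHom.ker (MvPolynomial.eval z) := by
        rw [← hs, Ideal.span_le]
        intro F hF
        obtain ⟨F', hF'⟩ := hlift F (Finset.mem_union_left _ hF)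
        have e2 : F' ∈ IK := by
          rw [hIK, Ideal.mem_comap, hF', ← hs]
          exact Ideal.subset_span hF
        have e3 := hz F' e2
        rw [hae, hF'] at e3
        exact e3
      exact fun F hF => e1 hF
    · intro hz F hF
      rw [hae]
      exact hz _ hF
  obtain ⟨c, hc⟩ := h2 k K IK J (by
    intro i hi
    obtain ⟨F', hF'⟩ := hlift (h i)
      (Finset.mem_union_right _ (Finset.mem_image_of_mem h (Finset.mem_univ i)))
    refine ⟨F', ?_, ?_, ?_⟩
    · rw [hIK, Ideal.mem_comap, hF']
      exact hhI i hi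
    · rintro rfl
      rw [map_zero] at hF'
      exact hh0 i hi hF'.symm
    · rw [← MvPolynomial.vars_map_of_injective F' K.subtype.injective, hF']
      exact hhv i hi) w
  refine ⟨c, ?_⟩
  filter_upwards [h1 {j // j ∈ J} K hKc] with ζ hζ
  have e1 := hc ζ hζ
  simp only [hzer] at e1
  exact e1

end Pool.Agent.H11.UDB
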