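import Pool.Agent.H83.UE.Targets3

/-!
# Board udb_modules, row LE1: the fibres near a totally ramified fixed point are spread
-/

set_option autoImplicit false

open Polynomial MeasureTheory Filter Topology Set
open scoped OnePoint ComplexConjugate ComplexOrder Laplacian ENNReal Nat
open Pool.Agent.H83.UE

namespace Pool.Agent.H11.UDB.LE1

/-- the polynomial part -/
theorem core (D : ℕ) (hD : 2 ≤ D) (q : ℂ[X]) (hq : q.natDegree ≤ D) (hq0 : q.coeff 0 ≠ 0)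
    (c : ℂ) (hc : c ≠ 0) : ∃ η : ℝ, 0 < η ∧ ∀ θ : ℂ, θ ≠ 0 → ‖θ‖ ≤ η →
    ∀ (b : ℂ) (a β : Fin D → ℂ), (∀ y : ℂ, c * y ^ D + θ * q.eval y = b * ∏ i, (a i * y - β i)) →
      (∀ i, a i ≠ 0) ∧ (∀ i, ‖β i / a i‖ ≤ 1) ∧
        ∃ i j, ‖θ‖ ≤ ‖β i / a i - β j / a j‖ := by
  set Q : ℝ := ∑ j ∈ Finset.range (D + 1), ‖q.coeff j‖ with hQ
  have hQ0 : 0 ≤ Q := Finset.sum_nonneg fun _ _ => norm_nonneg _
  have hQj : ∀ j, j ≤ D → ‖q.coeff j‖ ≤ Q := fun j hj =>
    Finset.single_le_sum (f := fun j => ‖q.coeff j‖) (fun _ _ => norm_nonneg _)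
      (Finset.mem_range.mpr (by omega))
  have hcp : 0 < ‖c‖ := norm_pos_iff.mpr hc
  have hq0p : 0 < ‖q.coeff 0‖ := norm_pos_iff.mpr hq0
  set M : ℝ := 1 + 2 * Q / ‖c‖ with hM
  have hM1 : 1 ≤ M := by
    have : 0 ≤ 2 * Q / ‖c‖ := by positivity
    linarith
  have hMp : 0 < M := by linarith
  set η : ℝ := min (min 1 (‖c‖ / (2 * (Q + 1)))) (‖q.coeff 0‖ / (4 * ‖c‖ * M ^ D)) with hη
  refine ⟨η, lt_min (lt_min one_pos (by positivity)) (by positivity), ?_⟩
  intro θ hθ hθη b a β hf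
  have h1 : ‖θ‖ ≤ 1 := hθη.trans ((min_le_left _ _).trans (min_le_left _ _))
  have h2 : ‖θ‖ ≤ ‖c‖ / (2 * (Q + 1)) := hθη.trans ((min_le_left _ _).trans (min_le_right _ _))
  have h3 : ‖θ‖ ≤ ‖q.coeff 0‖ / (4 * ‖c‖ * M ^ D) := hθη.trans (min_le_right _ _)
  have hθp : 0 < ‖θ‖ := norm_pos_iff.mpr hθ
  have h4 : ‖θ‖ * Q ≤ ‖c‖ / 2 := by
    rw [le_div_iff₀ (by positivity)] at h2
    nlinarith
  -- the leading coefficient
  have hpoly : C c * X ^ D + C θ * q = C b * ∏ i, (C (a i) * X - C (β i)) := by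
    refine Polynomial.funext fun y => ?_
    rw [eval_add, eval_mul, eval_mul, eval_mul, eval_C, eval_C, eval_C, eval_pow, eval_X,
      eval_prod, hf y]
    congr 1
    refine Finset.prod_congr rfl fun i _ => ?_
    rw [eval_sub, eval_mul, eval_C, eval_C, eval_X]
  set L : ℂ := c + θ * q.coeff D with hL
  have hLb : L = b * ∏ i, a i := by
    have e1 := congrArg (fun p : ℂ[X] => p.coeff D) hpoly
    simp only [coeff_add, coeff_C_mul, coeff_X_pow, if_true, mul_one] at e1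
    have e2 := Polynomial.coeff_prod_of_natDegree_le (Finset.univ : Finset (Fin D))
      (fun i => C (a i) * X - C (β i)) 1 (fun i _ => by compute_degree)
    simp only [Finset.card_univ, Fintype.card_fin, mul_one] at e2
    rw [e2] at e1
    rw [hL, e1]
    congr 1
    refine Finset.prod_congr rfl fun i _ => ?_
    simp [coeff_C]
  have hθD : ‖θ * q.coeff D‖ ≤ ‖c‖ / 2 := by
    rw [norm_mul]
    exact (mul_le_mul_of_nonneg_left (hQj D le_rfl) (norm_nonneg _)).trans h4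
  have hLlow : ‖c‖ / 2 ≤ ‖L‖ := by
    have e1 : c = L - θ * q.coeff D := by rw [hL]; ring
    have e2 : ‖c‖ ≤ ‖L‖ + ‖θ * q.coeff D‖ := by
      nth_rewrite 1 [e1]
      exact norm_sub_le _ _
    linarith
  have hLup : ‖L‖ ≤ 2 * ‖c‖ := by
    have e1 := norm_add_le c (θ * q.coeff D)
    rw [← hL] at e1
    linarith
  have hL0 : L ≠ 0 := by
    intro h
    rw [h, norm_zero] at hLlow
    linarith
  have ha : ∀ i, a i ≠ 0 := by
    intro i hi
    apply hL0
    rw [hLb, Finset.prod_eq_zero (Finset.mem_univ i) hi, mul_zero]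
  set y : Fin D → ℂ := fun i => β i / a i with hy
  have hf' : ∀ w : ℂ, c * w ^ D + θ * q.eval w = L * ∏ i, (w - y i) := by
    intro w
    rw [hf w, hLb, mul_assoc, ← Finset.prod_mul_distrib]
    congr 1
    refine Finset.prod_congr rfl fun i _ => ?_
    rw [hy, mul_sub, mul_div_cancel₀ _ (ha i)]
  -- the roots are small
  have hy1 : ∀ i, ‖y i‖ ≤ 1 := by
    intro i
    by_contra hcon
    push Not at hcon
    have e1 := hf' (y i)
    rw [Finset.prod_eq_zero (Finset.mem_univ i) (sub_self _), mul_zero] at e1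
    have e2 : ‖q.eval (y i)‖ ≤ Q * ‖y i‖ ^ D := by
      rw [Polynomial.eval_eq_sum_range' (n := D + 1) (by omega), hQ, Finset.sum_mul]
      refine (norm_sum_le _ _).trans (Finset.sum_le_sum fun j hj => ?_)
      rw [norm_mul, norm_pow]
      refine mul_le_mul_of_nonneg_left ?_ (norm_nonneg _)
      exact pow_le_pow_right₀ hcon.le (by
        rw [Finset.mem_range] at hj
        omega)
    have e3 : ‖c‖ * ‖y i‖ ^ D = ‖θ‖ * ‖q.eval (y i)‖ := by
      rw [← norm_pow, ← norm_mul, ← norm_mul, eq_neg_of_add_eq_zero_left e1, norm_neg]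
    have e4 : 0 < ‖y i‖ ^ D := by positivity
    have e5 : ‖c‖ * ‖y i‖ ^ D ≤ ‖c‖ / 2 * ‖y i‖ ^ D := by
      rw [e3]
      calc ‖θ‖ * ‖q.eval (y i)‖ ≤ ‖θ‖ * (Q * ‖y i‖ ^ D) :=
            mul_le_mul_of_nonneg_left e2 (norm_nonneg _)
        _ = ‖θ‖ * Q * ‖y i‖ ^ D := by ring
        _ ≤ ‖c‖ / 2 * ‖y i‖ ^ D := mul_le_mul_of_nonneg_right h4 e4.le
    have e6 := le_of_mul_le_mul_right e5 e4
    linarith
  refine ⟨ha, hy1, ?_⟩
  by_contra hcon
  push Not at hcon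
  -- the sum of the roots
  have hpoly' : C c * X ^ D + C θ * q = C L * ∏ i, (X - C (y i)) := by
    refine Polynomial.funext fun w => ?_
    rw [eval_add, eval_mul, eval_mul, eval_mul, eval_C, eval_C, eval_C, eval_pow, eval_X,
      eval_prod, hf' w]
    congr 1
    refine Finset.prod_congr rfl fun i _ => ?_
    rw [eval_sub, eval_C, eval_X]
  have hsum : θ * q.coeff (D - 1) = -(L * ∑ i, y i) := by
    have e1 := congrArg (fun p : ℂ[X] => p.coeff (D - 1)) hpoly'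
    have e2 := Polynomial.prod_X_sub_C_coeff_card_pred (Finset.univ : Finset (Fin D)) y
      (by rw [Finset.card_univ, Fintype.card_fin]; omega)
    simp only [Finset.card_univ, Fintype.card_fin] at e2
    simp only [coeff_add, coeff_C_mul, coeff_X_pow] at e1
    rw [if_neg (by omega), mul_zero, zero_add, e2] at e1
    rw [e1]
    ring
  have hsum' : ‖∑ i, y i‖ ≤ ‖θ‖ * (2 * Q / ‖c‖) := by
    have e1 : ‖L‖ * ‖∑ i, y i‖ = ‖θ‖ * ‖q.coeff (D - 1)‖ := by
      rw [← norm_mul, ← norm_mul, hsum, norm_neg]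
    have e2 := hQj (D - 1) (by omega)
    have e3 : ‖c‖ / 2 * ‖∑ i, y i‖ ≤ ‖θ‖ * Q := by
      calc ‖c‖ / 2 * ‖∑ i, y i‖ ≤ ‖L‖ * ‖∑ i, y i‖ :=
            mul_le_mul_of_nonneg_right hLlow (norm_nonneg _)
        _ = ‖θ‖ * ‖q.coeff (D - 1)‖ := e1
        _ ≤ ‖θ‖ * Q := mul_le_mul_of_nonneg_left e2 (norm_nonneg _)
    have e4 : ‖θ‖ * (2 * Q / ‖c‖) = (‖θ‖ * Q) / (‖c‖ / 2) := by
      field_simp
    rw [e4, le_div_iff₀ (by positivity)]
    linarith
  have hDp : (1 : ℝ) ≤ D := by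
    have : (2 : ℝ) ≤ D := by exact_mod_cast hD
    linarith
  have hyM : ∀ i, ‖y i‖ ≤ ‖θ‖ * M := by
    intro i
    have e1 : (D : ℂ) * y i = ∑ j, y j + ∑ j, (y i - y j) := by
      rw [← Finset.sum_add_distrib]
      have e2 : ∀ j ∈ (Finset.univ : Finset (Fin D)), y j + (y i - y j) = y i := fun j _ => by ring
      rw [Finset.sum_congr rfl e2, Finset.sum_const, Finset.card_univ, Fintype.card_fin,
        nsmul_eq_mul]
    have e3 : ‖∑ j, (y i - y j)‖ ≤ D * ‖θ‖ := by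
      refine (norm_sum_le _ _).trans ?_
      refine (Finset.sum_le_sum fun j _ => (hcon i j).le).trans ?_
      rw [Finset.sum_const, Finset.card_univ, Fintype.card_fin, nsmul_eq_mul]
    have e4 : (D : ℝ) * ‖y i‖ ≤ ‖θ‖ * (2 * Q / ‖c‖) + D * ‖θ‖ := by
      have e5 : ‖(D : ℂ) * y i‖ = D * ‖y i‖ := by
        rw [norm_mul, Complex.norm_natCast]
      rw [← e5, e1]
      exact (norm_add_le _ _).trans (add_le_add hsum' e3)
    have e6 : (0 : ℝ) ≤ ‖θ‖ * (2 * Q / ‖c‖) := by positivity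
    have e7 : ‖θ‖ * (2 * Q / ‖c‖) ≤ D * (‖θ‖ * (2 * Q / ‖c‖)) := by nlinarith
    have e8 : (D : ℝ) * ‖y i‖ ≤ D * (‖θ‖ * M) := by
      rw [hM]
      have : (D : ℝ) * (‖θ‖ * (1 + 2 * Q / ‖c‖)) = D * (‖θ‖ * (2 * Q / ‖c‖)) + D * ‖θ‖ := by ring
      rw [this]
      linarith
    exact le_of_mul_le_mul_left e8 (by linarith)
  have hprod : ‖θ‖ * ‖q.coeff 0‖ = ‖L‖ * ∏ i, ‖y i‖ := by
    have e1 := hf' 0
    rw [zero_pow (by omega), mul_zero, zero_add, ← coeff_zero_eq_eval_zero] at e1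
    rw [← norm_mul, e1, norm_mul, norm_prod]
    congr 1
    refine Finset.prod_congr rfl fun i _ => ?_
    rw [zero_sub, norm_neg]
  have hprod' : ∏ i, ‖y i‖ ≤ ‖θ‖ * ‖θ‖ * M ^ D := by
    calc ∏ i, ‖y i‖ ≤ ∏ _i : Fin D, (‖θ‖ * M) :=
          Finset.prod_le_prod (fun _ _ => norm_nonneg _) fun i _ => hyM i
      _ = ‖θ‖ ^ D * M ^ D := by
          rw [Finset.prod_const, Finset.card_univ, Fintype.card_fin, mul_pow]
      _ ≤ ‖θ‖ * ‖θ‖ * M ^ D := by
          refine mul_le_mul_of_nonneg_right ?_ (by positivity)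
          calc ‖θ‖ ^ D ≤ ‖θ‖ ^ 2 := pow_le_pow_of_le_one (norm_nonneg _) h1 hD
            _ = ‖θ‖ * ‖θ‖ := by ring
  have hfin : ‖θ‖ * ‖q.coeff 0‖ ≤ ‖θ‖ * (‖q.coeff 0‖ / 2) := by
    rw [hprod]
    have e1 : ‖θ‖ * (4 * ‖c‖ * M ^ D) ≤ ‖q.coeff 0‖ := by
      rwa [le_div_iff₀ (by positivity)] at h3
    calc ‖L‖ * ∏ i, ‖y i‖ ≤ (2 * ‖c‖) * (‖θ‖ * ‖θ‖ * M ^ D) :=
          mul_le_mul hLup hprod' (Finset.prod_nonneg fun _ _ => norm_nonneg _) (by positivity)
      _ = ‖θ‖ * ((‖θ‖ * (4 * ‖c‖ * M ^ D)) / 2) := by ring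
      _ ≤ ‖θ‖ * (‖q.coeff 0‖ / 2) := by
          refine mul_le_mul_of_nonneg_left ?_ (norm_nonneg _)
          linarith
  have := le_of_mul_le_mul_left hfin hθp
  linarith

theorem wd_le (v w : ℂ × ℂ) : ‖wd v w‖ ≤ 2 * (‖v‖ * ‖w‖) := by
  unfold wd
  have h1 := norm_sub_le (v.1 * w.2) (v.2 * w.1)
  rw [norm_mul, norm_mul] at h1
  have a := norm_fst_le v
  have b := norm_snd_le v
  have c := norm_fst_le w
  have d := norm_snd_le w
  have e1 := mul_le_mul a d (norm_nonneg _) (norm_nonneg _)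
  have e2 := mul_le_mul b c (norm_nonneg _) (norm_nonneg _)
  linarith

theorem dec (u v z : ℂ × ℂ) (h : wd v u = 1) : z = wd v z • u + wd z u • v := by
  unfold wd at *
  refine Prod.ext ?_ ?_
  · simp only [Prod.fst_add, Prod.smul_fst, smul_eq_mul]
    linear_combination (-z.1) * h
  · simp only [Prod.snd_add, Prod.smul_snd, smul_eq_mul]
    linear_combination (-z.2) * h

theorem vec_ne (e : OnePoint ℂ) : vec e ≠ 0 := by
  cases e with
  | infty =>
    intro h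
    have := congrArg Prod.fst h
    exact one_ne_zero this
  | coe a =>
    intro h
    have := congrArg Prod.snd h
    exact one_ne_zero this

theorem exv {w : ℂ × ℂ} (hw : w ≠ 0) : ∃ v : ℂ × ℂ, wd v w = 1 := by
  by_cases h1 : w.1 = 0
  · have h2 : w.2 ≠ 0 := fun h2 => hw (Prod.ext h1 h2)
    refine ⟨(w.2⁻¹, 0), ?_⟩
    simp [wd, h2]
  · refine ⟨(0, -w.1⁻¹), ?_⟩
    simp [wd, h1]

theorem hsub_deg (D : ℕ) (A U V : ℂ[X]) (hU : U.natDegree ≤ 1) (hV : V.natDegree ≤ 1) :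
    (hsub D A U V).natDegree ≤ D := by
  unfold hsub
  refine natDegree_sum_le_of_forall_le _ _ fun i hi => ?_
  have hi' : i ≤ D := by
    rw [Finset.mem_range] at hi
    omega
  refine natDegree_mul_le.trans ?_
  have e1 : (C (A.coeff i) * U ^ i).natDegree ≤ i := by
    refine (natDegree_C_mul_le _ _).trans (natDegree_pow_le.trans ?_)
    nlinarith
  have e2 : (V ^ (D - i)).natDegree ≤ D - i := by
    refine natDegree_pow_le.trans ?_
    nlinarith
  omega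

theorem hsub_eval (D : ℕ) (A : ℂ[X]) (u v : ℂ × ℂ) (y : ℂ) :
    (hsub D A (C u.1 + C v.1 * X) (C u.2 + C v.2 * X)).eval y = hev D A (u + y • v) := by
  unfold hsub hev
  rw [eval_finsetSum]
  refine Finset.sum_congr rfl fun i _ => ?_
  simp only [eval_mul, eval_pow, eval_add, eval_C, eval_X, Prod.fst_add, Prod.snd_add,
    Prod.smul_fst, Prod.smul_snd, smul_eq_mul]
  rw [mul_comm v.1 y, mul_comm v.2 y]

end Pool.Agent.H11.UDB.LE1

namespace Pool.Agent.H11.UDB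

open Pool.Agent.H11.UDB.LE1

theorem pf_LE1 : T_LE1 := by
  intro D A B hD _ _ hH e c hc hfix
  set u := vec e with hu
  have hu0 : u ≠ 0 := vec_ne e
  obtain ⟨v, hvu⟩ := exv hu0
  have hv0 : v ≠ 0 := by
    rintro rfl
    simp [wd] at hvu
  have hun : 0 < ‖u‖ := norm_pos_iff.mpr hu0
  have hvn : 0 < ‖v‖ := norm_pos_iff.mpr hv0
  set q : ℂ[X] := hsub D A (C u.1 + C v.1 * X) (C u.2 + C v.2 * X) * C v.2 -
    hsub D B (C u.1 + C v.1 * X) (C u.2 + C v.2 * X) * C v.1 with hq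
  have hlin : ∀ a b : ℂ, (C a + C b * X : ℂ[X]).natDegree ≤ 1 := fun a b => by compute_degree
  have hqd : q.natDegree ≤ D := by
    rw [hq]
    refine (natDegree_sub_le _ _).trans (max_le ?_ ?_)
    · exact (natDegree_mul_C_le _ _).trans (hsub_deg D A _ _ (hlin _ _) (hlin _ _))
    · exact (natDegree_mul_C_le _ _).trans (hsub_deg D B _ _ (hlin _ _) (hlin _ _))
  have hqe : ∀ y : ℂ, q.eval y = wd (hev D A (u + y • v), hev D B (u + y • v)) v := by
    intro y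
    rw [hq, eval_sub, eval_mul, eval_mul, eval_C, eval_C, hsub_eval, hsub_eval]
    rfl
  have huu : wd u u = 0 := by
    unfold wd
    ring
  have hq0 : q.coeff 0 ≠ 0 := by
    rw [coeff_zero_eq_eval_zero, hqe, zero_smul, add_zero]
    intro h
    have h1 := hfix u
    rw [huu, zero_pow (by omega), mul_zero] at h1
    apply hH u hu0
    rw [dec u v (hev D A u, hev D B u) hvu, h1]
    have h2 : wd v (hev D A u, hev D B u) = 0 := by
      have : wd v (hev D A u, hev D B u) = -wd (hev D A u, hev D B u) v := by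
        unfold wd
        ring
      rw [this, h, neg_zero]
    rw [h2, zero_smul, zero_smul, add_zero]
  obtain ⟨η, hη, hcore⟩ := core D hD q hqd hq0 c hc
  set K : ℝ := 2 * ‖v‖ / ‖u‖ with hK
  have hKp : 0 < K := by positivity
  refine ⟨min (1 / (2 * ‖u‖ * ‖v‖)) (η / (2 * ‖u‖ ^ 2)), 1 / (K * (‖u‖ + ‖v‖) ^ 2),
    lt_min (by positivity) (by positivity), by positivity, ?_⟩
  intro z hz hcd hcdt b x hx hform
  have ht1 : cd z u ≤ 1 / (2 * ‖u‖ * ‖v‖) := hcdt.trans (min_le_left _ _)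
  have ht2 : cd z u ≤ η / (2 * ‖u‖ ^ 2) := hcdt.trans (min_le_right _ _)
  have hzn : 0 < ‖z‖ := norm_pos_iff.mpr hz
  set α := wd v z with hα
  set τ := wd z u with hτ
  have hτcd : ‖τ‖ = cd z u * (‖z‖ * ‖u‖) := by
    unfold cd
    rw [← hτ, div_mul_cancel₀]
    positivity
  have hτp : 0 < ‖τ‖ := by
    rw [hτcd]
    positivity
  have hzdec := dec u v z hvu
  rw [← hα, ← hτ] at hzdec
  have hz1 : ‖z‖ ≤ ‖α‖ * ‖u‖ + ‖τ‖ * ‖v‖ := by
    calc ‖z‖ = ‖α • u + τ • v‖ := by rw [← hzdec]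
      _ ≤ ‖α • u‖ + ‖τ • v‖ := norm_add_le _ _
      _ = ‖α‖ * ‖u‖ + ‖τ‖ * ‖v‖ := by rw [norm_smul, norm_smul]
  have hz2 : ‖z‖ ≤ 2 * (‖α‖ * ‖u‖) := by
    have e1 : ‖τ‖ * ‖v‖ ≤ ‖z‖ / 2 := by
      rw [hτcd]
      rw [le_div_iff₀ (by positivity)] at ht1
      have : cd z u * (‖z‖ * ‖u‖) * ‖v‖ = ‖z‖ / 2 * (cd z u * (2 * ‖u‖ * ‖v‖)) := by ring
      rw [this]
      calc ‖z‖ / 2 * (cd z u * (2 * ‖u‖ * ‖v‖)) ≤ ‖z‖ / 2 * 1 :=
            mul_le_mul_of_nonneg_left ht1 (by positivity)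
        _ = ‖z‖ / 2 := mul_one _
    linarith
  have hαp : 0 < ‖α‖ := by
    by_contra h
    push Not at h
    have : ‖α‖ = 0 := le_antisymm h (norm_nonneg _)
    rw [this] at hz2
    linarith
  have hα0 : α ≠ 0 := norm_pos_iff.mp hαp
  have hτ0 : τ ≠ 0 := norm_pos_iff.mp hτp
  have hθn : ‖τ / α‖ ≤ η := by
    rw [norm_div, div_le_iff₀ hαp, hτcd]
    rw [le_div_iff₀ (by positivity)] at ht2
    calc cd z u * (‖z‖ * ‖u‖) ≤ cd z u * (2 * (‖α‖ * ‖u‖) * ‖u‖) :=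
          mul_le_mul_of_nonneg_left (mul_le_mul_of_nonneg_right hz2 hun.le) hcd.le
      _ = cd z u * (2 * ‖u‖ ^ 2) * ‖α‖ := by ring
      _ ≤ η * ‖α‖ := mul_le_mul_of_nonneg_right ht2 hαp.le
  have hcdθ : cd z u ≤ K * ‖τ / α‖ := by
    have e1 : ‖α‖ ≤ 2 * (‖v‖ * ‖z‖) := wd_le v z
    have e2 : cd z u = ‖τ‖ / (‖z‖ * ‖u‖) := rfl
    rw [e2, hK, norm_div, div_mul_div_comm, div_le_div_iff₀ (by positivity) (by positivity)]
    calc ‖τ‖ * (‖u‖ * ‖α‖) ≤ ‖τ‖ * (‖u‖ * (2 * (‖v‖ * ‖z‖))) :=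
          mul_le_mul_of_nonneg_left (mul_le_mul_of_nonneg_left e1 hun.le) hτp.le
      _ = 2 * ‖v‖ * ‖τ‖ * (‖z‖ * ‖u‖) := by ring
  obtain ⟨ha, hy, i, j, hij⟩ := hcore (τ / α) (div_ne_zero hτ0 hα0) hθn (b / α)
    (fun i => wd v (x i)) (fun i => wd (x i) u) (by
      intro y
      have e1 := hform (u + y • v)
      have e2 := hfix (u + y • v)
      have e3 : wd (u + y • v) u = y := by
        have : wd (u + y • v) u = y * wd v u := by
          unfold wd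
          simp only [Prod.fst_add, Prod.snd_add, Prod.smul_fst, Prod.smul_snd, smul_eq_mul]
          ring
        rw [this, hvu, mul_one]
      rw [e3] at e2
      have e4 : wd (hev D A (u + y • v), hev D B (u + y • v)) z =
          α * (c * y ^ D) + τ * q.eval y := by
        rw [hqe, ← e2]
        nth_rewrite 1 [hzdec]
        unfold wd
        simp only [Prod.fst_add, Prod.snd_add, Prod.smul_fst, Prod.smul_snd, smul_eq_mul]
        ring
      rw [e4] at e1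
      have e5 : ∀ i, wd (u + y • v) (x i) = wd v (x i) * y - wd (x i) u := by
        intro i
        unfold wd
        simp only [Prod.fst_add, Prod.snd_add, Prod.smul_fst, Prod.smul_snd, smul_eq_mul]
        ring
      simp only [e5] at e1
      field_simp
      linear_combination e1)
  refine ⟨i, j, ?_⟩
  have hxn : ∀ i, ‖x i‖ ≤ ‖wd v (x i)‖ * (‖u‖ + ‖v‖) := by
    intro i
    have e1 := dec u v (x i) hvu
    have e2 : ‖wd (x i) u‖ ≤ ‖wd v (x i)‖ := by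
      have e3 := hy i
      simp only [norm_div] at e3
      rwa [div_le_one (norm_pos_iff.mpr (ha i))] at e3
    calc ‖x i‖ = ‖wd v (x i) • u + wd (x i) u • v‖ := by rw [← e1]
      _ ≤ ‖wd v (x i)‖ * ‖u‖ + ‖wd (x i) u‖ * ‖v‖ := by
          refine (norm_add_le _ _).trans ?_
          rw [norm_smul, norm_smul]
      _ ≤ ‖wd v (x i)‖ * (‖u‖ + ‖v‖) := by nlinarith
  have hai := norm_pos_iff.mpr (ha i)
  have haj := norm_pos_iff.mpr (ha j)
  have hxi := norm_pos_iff.mpr (hx i)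
  have hxj := norm_pos_iff.mpr (hx j)
  have hw : ‖wd (x i) (x j)‖ =
      ‖wd v (x i)‖ * ‖wd v (x j)‖ * ‖wd (x i) u / wd v (x i) - wd (x j) u / wd v (x j)‖ := by
    rw [← norm_mul, ← norm_mul]
    congr 1
    have e1 : wd v (x i) * wd v (x j) * (wd (x i) u / wd v (x i) - wd (x j) u / wd v (x j)) =
        wd (x i) u * wd v (x j) - wd (x j) u * wd v (x i) := by
      have := ha i
      have := ha j
      field_simp
    rw [e1]
    unfold wd at hvu ⊢
    linear_combination (-((x i).1 * (x j).2 - (x i).2 * (x j).1)) * hvu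
  have hlow : ‖τ / α‖ / (‖u‖ + ‖v‖) ^ 2 ≤ cd (x i) (x j) := by
    unfold cd
    rw [hw, div_le_div_iff₀ (by positivity) (by positivity)]
    calc ‖τ / α‖ * (‖x i‖ * ‖x j‖)
        ≤ ‖τ / α‖ * ((‖wd v (x i)‖ * (‖u‖ + ‖v‖)) * (‖wd v (x j)‖ * (‖u‖ + ‖v‖))) := by
          refine mul_le_mul_of_nonneg_left ?_ (norm_nonneg _)
          exact mul_le_mul (hxn i) (hxn j) (norm_nonneg _) (by positivity)
      _ = (‖wd v (x i)‖ * ‖wd v (x j)‖) * ‖τ / α‖ * (‖u‖ + ‖v‖) ^ 2 := by ring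
      _ ≤ _ := by
          refine mul_le_mul_of_nonneg_right ?_ (by positivity)
          exact mul_le_mul_of_nonneg_left hij (by positivity)
  refine le_trans ?_ hlow
  rw [div_mul_eq_mul_div, one_mul, div_le_div_iff₀ (by positivity) (by positivity)]
  calc cd z u * (‖u‖ + ‖v‖) ^ 2 ≤ K * ‖τ / α‖ * (‖u‖ + ‖v‖) ^ 2 :=
        mul_le_mul_of_nonneg_right hcdθ (by positivity)
    _ = ‖τ / α‖ * (K * (‖u‖ + ‖v‖) ^ 2) := by ring

end Pool.Agent.H11.UDB
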